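import Mathlib

/-!
# Corona plus ker versus independence number and odd cycles (MP_7e5e3f_co)
-/

namespace Pool.Agent.Results.MP_7e5e3f_co.CoronaKer

open Finset SimpleGraph

section defs

variable {V : Type} [Fintype V] [DecidableEq V] (G : SimpleGraph V)

open scoped Classical in
/-- `N(X)`: the vertices adjacent to at least one vertex of `X` -/
noncomputable def nbr (X : Finset V) : Finset V := univ.filter fun v => ∃ x ∈ X, G.Adj x v

open scoped Classical in
/-- the union of all maximum independent sets -/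
noncomputable def corona : Finset V :=
  univ.filter fun v => ∃ S : Finset V, G.IsMaximumIndepSet S ∧ v ∈ S

/-- `d(X) = |X| - |N(X)|` -/
noncomputable def diff (X : Finset V) : ℤ := (X.card : ℤ) - ((nbr G X).card : ℤ)

/-- critical independent sets: independent sets maximising `d` among independent sets -/
def IsCritical (X : Finset V) : Prop :=
  G.IsIndepSet X ∧ ∀ Y : Finset V, G.IsIndepSet Y → diff G Y ≤ diff G X

open scoped Classical in
/-- the intersection of all critical independent sets -/
noncomputable def ker : Finset V := univ.filter fun v => ∀ X : Finset V, IsCritical G X → v ∈ X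

/-- `c` is the edge set of an odd cycle of `G` -/
def IsOddCycle (c : Finset (Sym2 V)) : Prop :=
  ∃ (v : V) (p : G.Walk v v), p.IsCycle ∧ Odd p.length ∧ p.edges.toFinset = c

/-- the number of odd cycles, cycles being counted as subgraphs (edge sets) -/
noncomputable def numOddCycles : ℕ := {c : Finset (Sym2 V) | IsOddCycle G c}.ncard

/-- the vertices of a cycle given by its edge set -/
def cycleVerts (c : Finset (Sym2 V)) : Set V := {v | ∃ e ∈ c, v ∈ e}

/-- the maximum number of pairwise vertex-disjoint odd cycles -/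
noncomputable def maxDisjointOddCycles : ℕ :=
  sSup {n | ∃ F : Finset (Finset (Sym2 V)), F.card = n ∧ (∀ c ∈ F, IsOddCycle G c) ∧
    ∀ c ∈ F, ∀ d ∈ F, c ≠ d → Disjoint (cycleVerts c) (cycleVerts d)}

/-- matchings, as sets of pairwise disjoint edges -/
def IsMatch (M : Finset (Sym2 V)) : Prop :=
  (∀ e ∈ M, e ∈ G.edgeSet) ∧ ∀ e ∈ M, ∀ f ∈ M, e ≠ f → ∀ v, ¬ (v ∈ e ∧ v ∈ f)

open scoped Classical in
/-- `D(G)`: the vertices left uncovered by some maximum matching -/
noncomputable def gallai : Finset V :=
  univ.filter fun v => ∃ M : Finset (Sym2 V), IsMatch G M ∧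
    (∀ M' : Finset (Sym2 V), IsMatch G M' → M'.card ≤ M.card) ∧ ∀ e ∈ M, v ∉ e

end defs

section general

variable {V : Type} [Fintype V] [DecidableEq V] {G : SimpleGraph V}

omit [DecidableEq V] in
lemma mem_nbr {X : Finset V} {v : V} : v ∈ nbr G X ↔ ∃ x ∈ X, G.Adj x v := by
  classical
  simp [nbr]

/-- a critical set meets every maximum independent set in a critical set, and
`N(I)` meets `S` in `|I \ S|` vertices -/
lemma crit_inter {I S : Finset V} (hI : IsCritical G I) (hS : G.IsMaximumIndepSet S) :
    IsCritical G (I ∩ S) := by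
  classical
  -- T = S ∩ N(I)
  set T := S ∩ nbr G I with hT
  -- first: |T| ≤ |I \ S|
  have h1 : T.card ≤ (I \ S).card := by
    -- J = I \ (vertices of I having a neighbour in T)
    set A := I.filter (fun x => ∃ t ∈ T, G.Adj x t) with hA
    have hAS : A ⊆ I \ S := by
      intro x hx
      rw [hA, mem_filter] at hx
      obtain ⟨hxI, t, ht, hadj⟩ := hx
      rw [mem_sdiff]
      refine ⟨hxI, fun hxS => ?_⟩
      rw [hT, mem_inter] at ht
      exact hS.isIndepSet (mem_coe.2 hxS) (mem_coe.2 ht.1) hadj.ne hadj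
    have hJ : G.IsIndepSet ((I \ A : Finset V) : Set V) := by
      intro x hx y hy hne
      rw [mem_coe, mem_sdiff] at hx hy
      exact hI.1 (mem_coe.2 hx.1) (mem_coe.2 hy.1) hne
    have hd := hI.2 _ hJ
    have hN : nbr G (I \ A) ⊆ nbr G I \ T := by
      intro v hv
      rw [mem_nbr] at hv
      obtain ⟨x, hx, hadj⟩ := hv
      rw [mem_sdiff] at hx
      rw [mem_sdiff, mem_nbr]
      refine ⟨⟨x, hx.1, hadj⟩, fun hvT => hx.2 ?_⟩
      rw [hA, mem_filter]
      exact ⟨hx.1, v, hvT, hadj⟩
    have hc1 := card_le_card hN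
    have hTN : T ⊆ nbr G I := inter_subset_right
    rw [card_sdiff_of_subset hTN] at hc1
    have hc2 := card_le_card hTN
    have hAI : A ⊆ I := filter_subset _ _
    have hc3 : (I \ A).card = I.card - A.card := card_sdiff_of_subset hAI
    have hc4 := card_le_card hAI
    have hc5 := card_le_card hAS
    unfold diff at hd
    omega
  -- second: |S| ≥ |(S \ T) ∪ I|
  have h2 : (I \ S).card ≤ T.card := by
    have hind : G.IsIndepSet (((S \ T) ∪ I : Finset V) : Set V) := by
      have key : ∀ x ∈ S \ T, ∀ y ∈ I, ¬ G.Adj x y := by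
        intro x hx y hy hadj
        rw [mem_sdiff] at hx
        apply hx.2
        rw [hT, mem_inter, mem_nbr]
        exact ⟨hx.1, y, hy, hadj.symm⟩
      intro x hx y hy hne
      rw [mem_coe, mem_union] at hx hy
      rcases hx with hx | hx <;> rcases hy with hy | hy
      · rw [mem_sdiff] at hx hy
        exact hS.isIndepSet (mem_coe.2 hx.1) (mem_coe.2 hy.1) hne
      · exact key x hx y hy
      · exact fun h => key y hy x hx h.symm
      · exact hI.1 (mem_coe.2 hx) (mem_coe.2 hy) hne
    have hle := hS.maximum _ hind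
    have hsub : (S \ T) ∪ (I \ S) ⊆ (S \ T) ∪ I :=
      union_subset_union_right sdiff_subset
    have hdis : Disjoint (S \ T) (I \ S) := by
      rw [Finset.disjoint_left]
      intro x hx hx'
      rw [mem_sdiff] at hx hx'
      exact hx'.2 hx.1
    have h3 := card_le_card hsub
    have hTS : T ⊆ S := inter_subset_left
    rw [card_union_of_disjoint hdis, card_sdiff_of_subset hTS] at h3
    have h4 := card_le_card hTS
    omega
  refine ⟨?_, ?_⟩
  · intro x hx y hy hne
    rw [mem_coe, mem_inter] at hx hy
    exact hI.1 (mem_coe.2 hx.1) (mem_coe.2 hy.1) hne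
  · intro Y hY
    refine (hI.2 Y hY).trans ?_
    have hN : nbr G (I ∩ S) ⊆ nbr G I \ T := by
      intro v hv
      rw [mem_nbr] at hv
      obtain ⟨x, hx, hadj⟩ := hv
      rw [mem_inter] at hx
      rw [mem_sdiff, mem_nbr]
      refine ⟨⟨x, hx.1, hadj⟩, fun hvT => ?_⟩
      rw [hT, mem_inter] at hvT
      exact hS.isIndepSet (mem_coe.2 hx.2) (mem_coe.2 hvT.1) hadj.ne hadj
    have hc1 := card_le_card hN
    have hTN : T ⊆ nbr G I := inter_subset_right
    rw [card_sdiff_of_subset hTN] at hc1
    have hc2 := card_le_card hTN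
    have hc3 : (I \ S).card + (I ∩ S).card = I.card := card_sdiff_add_card_inter I S
    unfold diff
    omega

/-- two critical sets inside a common independent set meet in a critical set -/
lemma crit_inter_of_subset {A B S : Finset V} (hA : IsCritical G A) (hB : IsCritical G B)
    (hAS : A ⊆ S) (hBS : B ⊆ S) (hS : G.IsIndepSet (S : Set V)) :
    IsCritical G (A ∩ B) := by
  classical
  have hu : G.IsIndepSet ((A ∪ B : Finset V) : Set V) := by
    intro x hx y hy hne
    exact hS (mem_coe.2 (union_subset hAS hBS (mem_coe.1 hx)))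
      (mem_coe.2 (union_subset hAS hBS (mem_coe.1 hy))) hne
  refine ⟨?_, ?_⟩
  · intro x hx y hy hne
    rw [mem_coe, mem_inter] at hx hy
    exact hA.1 (mem_coe.2 hx.1) (mem_coe.2 hy.1) hne
  · intro Y hY
    have h1 := hA.2 _ hu
    have h2 := hB.2 _ hY
    have h3 : nbr G (A ∪ B) = nbr G A ∪ nbr G B := by
      ext v
      simp only [mem_nbr, mem_union]
      constructor
      · rintro ⟨x, hx | hx, h⟩
        · exact Or.inl ⟨x, hx, h⟩
        · exact Or.inr ⟨x, hx, h⟩
      · rintro (⟨x, hx, h⟩ | ⟨x, hx, h⟩)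
        · exact ⟨x, Or.inl hx, h⟩
        · exact ⟨x, Or.inr hx, h⟩
    have h4 : nbr G (A ∩ B) ⊆ nbr G A ∩ nbr G B := by
      intro v hv
      rw [mem_nbr] at hv
      obtain ⟨x, hx, h⟩ := hv
      rw [mem_inter] at hx
      rw [mem_inter, mem_nbr, mem_nbr]
      exact ⟨⟨x, hx.1, h⟩, ⟨x, hx.2, h⟩⟩
    have h5 := card_le_card h4
    have h6 := card_union_add_card_inter A B
    have h7 := card_union_add_card_inter (nbr G A) (nbr G B)
    unfold diff at *
    rw [h3] at h1
    omega

lemma exists_critical : ∃ I : Finset V, IsCritical G I := by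
  classical
  obtain ⟨I, hI, hmax⟩ := Finset.exists_max_image
    (univ.filter fun X : Finset V => G.IsIndepSet (X : Set V)) (diff G)
    ⟨∅, by rw [mem_filter]; exact ⟨mem_univ _, by simp [SimpleGraph.IsIndepSet]⟩⟩
  rw [mem_filter] at hI
  exact ⟨I, hI.2, fun Y hY => hmax Y (by rw [mem_filter]; exact ⟨mem_univ _, hY⟩)⟩

/-- `ker` is itself critical, and it lies in every maximum independent set -/
lemma ker_spec : IsCritical G (ker G) ∧ ∀ S, G.IsMaximumIndepSet S → ker G ⊆ S := by
  classical
  have hsub : ∀ S, G.IsMaximumIndepSet S → ker G ⊆ S := by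
    intro S hS v hv
    obtain ⟨I, hI⟩ := exists_critical (G := G)
    have h := crit_inter hI hS
    have hv' : ∀ X : Finset V, IsCritical G X → v ∈ X := by
      simpa [ker] using hv
    exact (mem_inter.1 (hv' _ h)).2
  refine ⟨?_, hsub⟩
  obtain ⟨S, hS⟩ := G.maximumIndepSet_exists
  obtain ⟨I, hI⟩ := exists_critical (G := G)
  obtain ⟨A, hA, hmin⟩ := Finset.exists_min_image
    (univ.filter fun X : Finset V => IsCritical G X ∧ X ⊆ S) (fun X => X.card)
    ⟨I ∩ S, by rw [mem_filter]; exact ⟨mem_univ _, crit_inter hI hS, inter_subset_right⟩⟩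
  rw [mem_filter] at hA
  obtain ⟨-, hAc, hAS⟩ := hA
  have hle : ∀ X, IsCritical G X → A ⊆ X := by
    intro X hX
    have h1 := crit_inter hX hS
    have h2 := crit_inter_of_subset hAc h1 hAS inter_subset_right hS.isIndepSet
    have h3 := hmin (A ∩ (X ∩ S)) (by
      rw [mem_filter]
      exact ⟨mem_univ _, h2, inter_subset_left.trans hAS⟩)
    have h4 : A ∩ (X ∩ S) = A := eq_of_subset_of_card_le inter_subset_left h3
    intro v hv
    rw [← h4, mem_inter, mem_inter] at hv
    exact hv.2.1
  have : ker G = A := by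
    apply Finset.Subset.antisymm
    · intro v hv
      have hv' : ∀ X : Finset V, IsCritical G X → v ∈ X := by
        simpa [ker] using hv
      exact hv' A hAc
    · intro v hv
      simp only [ker, mem_filter, mem_univ, true_and]
      exact fun X hX => hle X hX hv
  rw [this]
  exact hAc

/-- the inequality with the odd cycle transversal number -/
theorem transversal (T : Finset V)
    (hT : ∃ f : V → Bool, ∀ u v, u ∉ T → v ∉ T → G.Adj u v → f u ≠ f v) :
    (corona G).card + (ker G).card ≤ 2 * G.indepNum + T.card := by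
  classical
  obtain ⟨f, hf⟩ := hT
  obtain ⟨hK, hsub⟩ := ker_spec (G := G)
  -- Y: vertices outside ker ∪ N(ker)
  set K := ker G with hKdef
  set Y := univ \ (K ∪ nbr G K) with hY
  have hcor : corona G ⊆ K ∪ Y := by
    intro v hv
    simp only [corona, mem_filter, mem_univ, true_and] at hv
    obtain ⟨S, hS, hvS⟩ := hv
    rw [mem_union]
    by_cases hvK : v ∈ K
    · exact Or.inl hvK
    · right
      rw [hY, mem_sdiff, mem_union]
      refine ⟨mem_univ _, ?_⟩
      rintro (h | h)
      · exact hvK h
      · rw [mem_nbr] at h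
        obtain ⟨x, hx, hadj⟩ := h
        exact hS.isIndepSet (mem_coe.2 (hsub S hS hx)) (mem_coe.2 hvS) hadj.ne hadj
  have h1 := (card_le_card hcor).trans (card_union_le K Y)
  -- colour classes of Y \ T
  have hcol : ∀ b : Bool, K.card + ((Y \ T).filter (fun v => f v = b)).card ≤ G.indepNum := by
    intro b
    have hdis : Disjoint K ((Y \ T).filter (fun v => f v = b)) := by
      rw [Finset.disjoint_left]
      intro x hx hx'
      rw [mem_filter, mem_sdiff, hY, mem_sdiff, mem_union] at hx'
      exact hx'.1.1.2 (Or.inl hx)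
    rw [← card_union_of_disjoint hdis]
    apply IsIndepSet.card_le_indepNum
    have key : ∀ x ∈ K, ∀ y ∈ (Y \ T).filter (fun v => f v = b), ¬ G.Adj x y := by
      intro x hx y hy hadj
      rw [mem_filter, mem_sdiff, hY, mem_sdiff, mem_union] at hy
      exact hy.1.1.2 (Or.inr (mem_nbr.2 ⟨x, hx, hadj⟩))
    intro x hx y hy hne
    rw [mem_coe, mem_union] at hx hy
    rcases hx with hx | hx <;> rcases hy with hy | hy
    · exact hK.1 (mem_coe.2 hx) (mem_coe.2 hy) hne
    · exact key x hx y hy
    · exact fun h => key y hy x hx h.symm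
    · rw [mem_filter, mem_sdiff] at hx hy
      exact fun h => hf x y hx.1.2 hy.1.2 h (hx.2.trans hy.2.symm)
  have h2 : Y.card ≤ (Y \ T).card + T.card := by
    have h3 := card_le_card (show Y ⊆ (Y \ T) ∪ T by
      intro v hv
      rw [mem_union, mem_sdiff]
      by_cases h : v ∈ T
      · exact Or.inr h
      · exact Or.inl ⟨hv, h⟩)
    exact h3.trans (card_union_le _ _)
  have h3 : (Y \ T).card = ((Y \ T).filter (fun v => f v = true)).card +
      ((Y \ T).filter (fun v => f v = false)).card := by
    rw [← card_filter_add_card_filter_not (s := Y \ T) (fun v => f v = true)]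
    simp
  have h4 := hcol true
  have h5 := hcol false
  omega

end general

section oddcycle

variable {V : Type} {G : SimpleGraph V}

/-- there is a walk of length `n` from `u` to `v` -/
def HW (G : SimpleGraph V) (n : ℕ) (u v : V) : Prop := ∃ p : G.Walk u v, p.length = n

structure MinOdd (G : SimpleGraph V) (g : ℕ) (c : ℕ → V) : Prop where
  adj : ∀ i < g, G.Adj (c i) (c (i+1))
  closed : c g = c 0
  odd : Odd g
  min : ∀ n, Odd n → n < g → ∀ v, ¬ HW G n v v

lemma HW.refl (u : V) : HW G 0 u u := ⟨SimpleGraph.Walk.nil, rfl⟩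

lemma HW.of_adj {u v : V} (h : G.Adj u v) : HW G 1 u v :=
  ⟨SimpleGraph.Walk.cons h SimpleGraph.Walk.nil, rfl⟩

lemma HW.trans {a b : ℕ} {u v w : V} (h1 : HW G a u v) (h2 : HW G b v w) : HW G (a + b) u w := by
  obtain ⟨p, hp⟩ := h1
  obtain ⟨q, hq⟩ := h2
  exact ⟨p.append q, by rw [SimpleGraph.Walk.length_append, hp, hq]⟩

lemma HW.symm {a : ℕ} {u v : V} (h1 : HW G a u v) : HW G a v u := by
  obtain ⟨p, hp⟩ := h1
  exact ⟨p.reverse, by rw [SimpleGraph.Walk.length_reverse, hp]⟩

lemma HW_seg (c : ℕ → V) (g : ℕ) (hc : ∀ i < g, G.Adj (c i) (c (i+1))) (i : ℕ) (d : ℕ)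
    (h : i + d ≤ g) : HW G d (c i) (c (i + d)) := by
  induction d with
  | zero => exact HW.refl _
  | succ d ih =>
    have h1 := ih (by omega)
    exact h1.trans (HW.of_adj (hc (i+d) (by omega)))

namespace MinOdd
variable {g : ℕ} {c : ℕ → V}

lemma arc1 (M : MinOdd G g c) {i j : ℕ} (hij : i ≤ j) (hj : j ≤ g) : HW G (j - i) (c i) (c j) := by
  have w1 := HW_seg c g M.adj i (j - i) (by omega)
  rwa [show i + (j - i) = j by omega] at w1

lemma arc2 (M : MinOdd G g c) {i j : ℕ} (hij : i ≤ j) (hj : j ≤ g) :
    HW G (g - (j - i)) (c i) (c j) := by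
  have w2 := M.arc1 hj le_rfl
  rw [M.closed] at w2
  have w3 := M.arc1 (Nat.zero_le i) (hij.trans hj)
  have w4 := (w2.trans w3).symm
  rwa [show g - j + (i - 0) = g - (j - i) by omega] at w4

lemma inj (M : MinOdd G g c) {i j : ℕ} (hij : i < j) (hj : j < g) : c i ≠ c j := by
  intro heq
  have w1 := M.arc1 hij.le hj.le
  have w2 := M.arc2 hij.le hj.le
  rw [← heq] at w1 w2
  obtain ⟨b, hb⟩ := M.odd
  rcases Nat.even_or_odd (j - i) with ⟨a, ha⟩ | ho
  · exact M.min (g - (j - i)) ⟨b - a, by omega⟩ (by omega) _ w2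
  · exact M.min (j - i) ho (by omega) _ w1

end MinOdd

/-- a graph which is not `2`-colourable has an odd cycle -/
theorem exists_odd_cycle (h : ¬ G.Colorable 2) :
    ∃ (v : V) (p : G.Walk v v), p.IsCycle ∧ Odd p.length := by
  classical
  rw [SimpleGraph.two_colorable_iff_forall_loop_even] at h
  push Not at h
  obtain ⟨u, w, hw⟩ := h
  have hex : ∃ n, Odd n ∧ ∃ v, HW G n v v := ⟨w.length, by simpa using hw, u, w, rfl⟩
  obtain ⟨hodd, v', p, hp⟩ := Nat.find_spec hex
  set g := Nat.find hex with hg
  have M : MinOdd G g p.getVert := by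
    constructor
    · intro i hi
      exact p.adj_getVert_succ (by rw [hp]; exact hi)
    · rw [← hp]; simp
    · exact hodd
    · intro n hn hlt v hv
      exact Nat.find_min hex hlt ⟨hn, v, hv⟩
  refine ⟨v', p, ?_, by rw [hp]; exact M.odd⟩
  have h3g : 3 ≤ g := by
    obtain ⟨b, hb⟩ := M.odd
    rcases Nat.lt_or_ge g 3 with h | h
    · have hg1 : g = 1 := by omega
      have := M.adj 0 (by omega)
      have h2 := M.closed
      rw [hg1] at h2
      simp only [zero_add] at this
      rw [h2] at this
      exact absurd rfl this.ne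
    · exact h
  rw [SimpleGraph.Walk.isCycle_iff_isPath_tail_and_le_length]
  have hnil : ¬ p.Nil := by
    intro hn
    have := SimpleGraph.Walk.length_eq_zero_iff.mpr hn
    omega
  have htl := SimpleGraph.Walk.length_tail_add_one hnil
  refine ⟨?_, by omega⟩
  rw [← SimpleGraph.Walk.IsPath.getVert_injOn_iff]
  intro a ha b hb hab
  simp only [Set.mem_ofPred_eq] at ha hb
  rw [SimpleGraph.Walk.getVert_tail, SimpleGraph.Walk.getVert_tail] at hab
  have key : ∀ a b, a < b → b ≤ p.tail.length → p.getVert (a+1) ≠ p.getVert (b+1) := by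
    intro a b hab hb
    rcases Nat.lt_or_ge (b+1) g with h1 | h1
    · exact M.inj (by omega) h1
    · have hbl : b + 1 = g := by omega
      rw [hbl, M.closed]
      exact (M.inj (by omega) (by omega)).symm
  by_contra hne
  rcases lt_or_gt_of_ne hne with h1 | h1
  · exact key a b h1 hb hab
  · exact key b a h1 ha hab.symm

end oddcycle

section q1

variable {V : Type} [Fintype V] [DecidableEq V] (G : SimpleGraph V)

/-- there is a vertex set of size at most the number of odd cycles meeting all of them -/
lemma exists_transversal : ∃ T : Finset V, T.card ≤ numOddCycles G ∧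
    ∃ f : V → Bool, ∀ u v, u ∉ T → v ∉ T → G.Adj u v → f u ≠ f v := by
  classical
  set C : Finset (Finset (Sym2 V)) := univ.filter fun c => IsOddCycle G c with hC
  have hch : ∀ c ∈ C, ∃ v : V, ∃ p : G.Walk v v, p.IsCycle ∧ Odd p.length ∧ p.edges.toFinset = c := by
    intro c hc
    rw [hC, mem_filter] at hc
    exact hc.2
  set T : Finset V := C.attach.image (fun c => (hch c.1 c.2).choose) with hT
  refine ⟨T, ?_, ?_⟩
  · refine card_image_le.trans ?_
    rw [card_attach, numOddCycles, Set.ncard_eq_toFinset_card']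
    apply card_le_card
    intro c hc
    rw [hC, mem_filter] at hc
    rw [Set.mem_toFinset]
    exact hc.2
  · -- the graph with all edges at T deleted is bipartite
    set H : SimpleGraph V := G.deleteEdges {e | ∃ v ∈ T, v ∈ e} with hH
    have hHadj : ∀ u v, H.Adj u v ↔ G.Adj u v ∧ u ∉ T ∧ v ∉ T := by
      intro u v
      rw [hH, deleteEdges_adj]
      constructor
      · rintro ⟨h1, h2⟩
        refine ⟨h1, fun hu => h2 ⟨u, hu, ?_⟩, fun hv => h2 ⟨v, hv, ?_⟩⟩
        · exact Sym2.mem_mk_left u v
        · exact Sym2.mem_mk_right u v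
      · rintro ⟨h1, h2, h3⟩
        refine ⟨h1, ?_⟩
        rintro ⟨x, hx, hxe⟩
        rw [Sym2.mem_iff] at hxe
        rcases hxe with rfl | rfl
        · exact h2 hx
        · exact h3 hx
    have hcolH : H.Colorable 2 := by
      by_contra hcon
      obtain ⟨v, p, hp, hodd⟩ := exists_odd_cycle hcon
      -- transfer to G
      have hle : H ≤ G := deleteEdges_le _
      have hpc : (p.mapLe hle).IsCycle := hp.mapLe hle
      have hmem : (p.mapLe hle).edges.toFinset ∈ C := by
        rw [hC, mem_filter]
        exact ⟨mem_univ _, v, p.mapLe hle, hpc, by simpa using hodd, rfl⟩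
      have hwT : (hch _ hmem).choose ∈ T := by
        rw [hT, mem_image]
        exact ⟨⟨_, hmem⟩, mem_attach _ _, rfl⟩
      have hspec := (hch _ hmem).choose_spec
      generalize (hch _ hmem).choose = w at hwT hspec
      obtain ⟨q, hq, -, hqe⟩ := hspec
      -- w is on an edge of q, hence of p
      have hqn : ¬ q.Nil := by
        intro h
        have h1 := hq.three_le_length
        have h2 := SimpleGraph.Walk.length_eq_zero_iff.mpr h
        omega
      have he : s(w, q.snd) ∈ q.edges := by
        have := Walk.mk_start_snd_mem_edges hqn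
        exact this
      have he2 : s(w, q.snd) ∈ (p.mapLe hle).edges.toFinset := by
        rw [← hqe, List.mem_toFinset]
        exact he
      rw [List.mem_toFinset, Walk.edges_mapLe_eq_edges] at he2
      have he3 := p.adj_of_mem_edges he2
      rw [hHadj] at he3
      exact he3.2.1 hwT
    obtain ⟨c⟩ := hcolH
    refine ⟨fun v => decide (c v = 0), ?_⟩
    intro u v hu hv hadj heq
    have h1 := c.valid ((hHadj u v).2 ⟨hadj, hu, hv⟩)
    have h2 : (c u = 0) ↔ (c v = 0) := by simpa using heq
    apply h1
    have h3 := (c u).isLt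
    have h4 := (c v).isLt
    by_cases h0 : c u = 0
    · rw [h0, h2.1 h0]
    · have h5 : c v ≠ 0 := fun h => h0 (h2.2 h)
      ext
      have h6 : (c u).val ≠ 0 := fun h => h0 (Fin.ext h)
      have h7 : (c v).val ≠ 0 := fun h => h5 (Fin.ext h)
      omega

end q1

section k4

/-- the complete graph on four vertices -/
abbrev K4 : SimpleGraph (Fin 4) := ⊤

lemma k4_indepNum : K4.indepNum = 1 := by
  apply le_antisymm
  · obtain ⟨S, hS⟩ := K4.maximumIndepSet_exists
    rw [← maximumIndepSet_card_eq_indepNum S hS, Finset.card_le_one]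
    intro a ha b hb
    by_contra hne
    exact hS.isIndepSet (mem_coe.2 ha) (mem_coe.2 hb) hne hne
  · have : K4.IsIndepSet (({0} : Finset (Fin 4)) : Set (Fin 4)) := by
      simp [SimpleGraph.IsIndepSet]
    simpa using this.card_le_indepNum

lemma k4_corona : corona K4 = univ := by
  classical
  ext v
  simp only [corona, mem_filter, mem_univ, true_and, iff_true]
  refine ⟨{v}, ⟨by simp [SimpleGraph.IsIndepSet], ?_⟩, mem_singleton_self v⟩
  intro t ht
  rw [card_singleton]
  have := ht.card_le_indepNum
  rwa [k4_indepNum] at this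

/-- the matching condition for edge sets of `K4`, as a Boolean -/
def okM (M : Finset (Sym2 (Fin 4))) : Bool :=
  decide (∀ e ∈ M, ¬ e.IsDiag) && decide (∀ e ∈ M, ∀ f ∈ M, e ≠ f → ∀ v, ¬ (v ∈ e ∧ v ∈ f))

/-- all vertices covered, as a Boolean -/
def covM (M : Finset (Sym2 (Fin 4))) : Bool := decide (∀ v, ∃ e ∈ M, v ∈ e)

lemma k4_match : ∀ M : Finset (Sym2 (Fin 4)), (!okM M || decide (M.card ≤ 1) || covM M) = true := by
  decide +kernel

lemma k4_match2 : okM {s(0, 1), s(2, 3)} = true := by
  decide +kernel

lemma k4_match3 : ({s(0, 1), s(2, 3)} : Finset (Sym2 (Fin 4))).card = 2 := by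
  decide +kernel

lemma isMatch_iff (M : Finset (Sym2 (Fin 4))) : IsMatch K4 M ↔ okM M = true := by
  unfold IsMatch okM
  simp

lemma k4_gallai : gallai K4 = ∅ := by
  classical
  ext v
  simp only [gallai, mem_filter, mem_univ, true_and, notMem_empty, iff_false]
  rintro ⟨M, hM, hmax, hv⟩
  have h1 := hmax {s(0, 1), s(2, 3)} ((isMatch_iff _).2 k4_match2)
  rw [k4_match3] at h1
  have h2 := k4_match M
  rw [(isMatch_iff _).1 hM] at h2
  have h3 : covM M = true := by
    have h4 : decide (M.card ≤ 1) = false := by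
      rw [decide_eq_false_iff_not]
      omega
    simpa [h4] using h2
  unfold covM at h3
  rw [decide_eq_true_iff] at h3
  obtain ⟨e, he, hve⟩ := h3 v
  exact hv e he hve

lemma odd_cycle_verts {c : Finset (Sym2 (Fin 4))} (hc : IsOddCycle K4 c) :
    3 ≤ (cycleVerts c).ncard := by
  classical
  obtain ⟨v, p, hp, -, rfl⟩ := hc
  have h1 := hp.three_le_length
  have h2 : (p.support.tail.toFinset : Set (Fin 4)) ⊆ cycleVerts p.edges.toFinset := by
    intro w hw
    rw [mem_coe, List.mem_toFinset] at hw
    have hw' := List.mem_of_mem_tail hw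
    have hn : ¬ p.Nil := by
      intro h
      have h2 := SimpleGraph.Walk.length_eq_zero_iff.mpr h
      omega
    obtain ⟨e, he, hwe⟩ := (Walk.mem_support_iff_exists_mem_edges_of_not_nil hn).1 hw'
    exact ⟨e, by rw [List.mem_toFinset]; exact he, hwe⟩
  have h3 := Set.ncard_le_ncard h2 (Set.toFinite _)
  rw [Set.ncard_coe_finset, List.toFinset_card_of_nodup hp.support_nodup] at h3
  have h4 : p.support.tail.length = p.length := by
    rw [List.length_tail, Walk.length_support]
    rfl
  omega

lemma k4_disjoint : maxDisjointOddCycles K4 ≤ 1 := by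
  classical
  unfold maxDisjointOddCycles
  apply csSup_le
  · exact ⟨0, ∅, by simp⟩
  · rintro n ⟨F, rfl, hF, hd⟩
    by_contra hcon
    push Not at hcon
    obtain ⟨c, hc, d, hdF, hne⟩ := Finset.one_lt_card.1 hcon
    have h1 := odd_cycle_verts (hF c hc)
    have h2 := odd_cycle_verts (hF d hdF)
    have h3 := Set.ncard_union_eq (hd c hc d hdF hne) (Set.toFinite _) (Set.toFinite _)
    have h4 := Set.ncard_le_card (cycleVerts c ∪ cycleVerts d)
    rw [Nat.card_fin] at h4
    omega

end k4

/-- **Q1 holds for every graph**, even with the number of odd cycles replaced by the size of any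
vertex set whose deletion leaves a bipartite graph; **both inequalities of Q2 fail**. -/
theorem result :
    (∀ (V : Type) [Fintype V] [DecidableEq V] (G : SimpleGraph V),
      (corona G).card + (ker G).card ≤ 2 * G.indepNum + numOddCycles G) ∧
    (∀ (V : Type) [Fintype V] [DecidableEq V] (G : SimpleGraph V) (T : Finset V),
      (∃ f : V → Bool, ∀ u v, u ∉ T → v ∉ T → G.Adj u v → f u ≠ f v) →
      (corona G).card + (ker G).card ≤ 2 * G.indepNum + T.card) ∧
    (∃ (n : ℕ) (G : SimpleGraph (Fin n)),
      2 * G.indepNum + numOddCycles (G.induce (gallai G : Set (Fin n))) <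
        (corona G).card + (ker G).card) ∧
    (∃ (n : ℕ) (G : SimpleGraph (Fin n)),
      2 * G.indepNum + maxDisjointOddCycles G < (corona G).card + (ker G).card) := by
  refine ⟨?_, ?_, ?_, ?_⟩
  · intro V _ _ G
    obtain ⟨T, hT, hf⟩ := exists_transversal G
    have := transversal T hf
    omega
  · intro V _ _ G T hT
    exact transversal T hT
  · refine ⟨4, K4, ?_⟩
    have h0 : numOddCycles (K4.induce (gallai K4 : Set (Fin 4))) = 0 := by
      unfold numOddCycles
      rw [Set.ncard_eq_zero]
      ext c
      simp only [Set.mem_ofPred_eq, Set.mem_empty_iff_false, iff_false]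
      rintro ⟨⟨v, hv⟩, -⟩
      rw [k4_gallai] at hv
      simp at hv
    rw [h0, k4_indepNum, k4_corona]
    simp only [card_univ, Fintype.card_fin]
    omega
  · refine ⟨4, K4, ?_⟩
    have h1 := k4_disjoint
    rw [k4_indepNum, k4_corona]
    simp only [card_univ, Fintype.card_fin]
    omega

end Pool.Agent.Results.MP_7e5e3f_co.CoronaKer
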